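import Pool.Agent.Lib.MP_7c9f8e_gt.RevBodies

/-!
In every dimension `n ≥ 4` there are two convex bodies with real analytic boundary that have the
same magnitude function and are not isometric.
-/

open Set
open scoped Pointwise ContDiff

namespace Pool.Agent.Results.MP_7c9f8e_gt.NonCongruentFour

open Pool.Agent.Lib.MP_7c9f8e_gt

/-- A convex body: a compact convex set with nonempty interior. -/
def IsConvexBody {n : ℕ} (A : Set (EuclideanSpace ℝ (Fin n))) : Prop :=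
  IsCompact A ∧ Convex ℝ A ∧ (interior A).Nonempty

/-- `A` is a sublevel set of a real analytic function at a regular level. -/
def HasAnalyticBoundary {n : ℕ} (A : Set (EuclideanSpace ℝ (Fin n))) : Prop :=
  ∃ φ : EuclideanSpace ℝ (Fin n) → ℝ,
    AnalyticOnNhd ℝ φ univ ∧ A = {x | φ x ≤ 0} ∧ ∀ x, φ x = 0 → fderiv ℝ φ x ≠ 0

theorem result (n : ℕ) (hn : 4 ≤ n) :
    ∃ A B : Set (EuclideanSpace ℝ (Fin n)),
      IsConvexBody A ∧ IsConvexBody B ∧ HasAnalyticBoundary A ∧ HasAnalyticBoundary B ∧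
      (∀ t : ℝ, 0 < t → magnitude (t • A) = magnitude (t • B)) ∧ IsEmpty (A ≃ᵢ B) := by
  obtain ⟨k, rfl⟩ : ∃ k, n = 4 + k := ⟨n - 4, by omega⟩
  obtain ⟨a1, a2, a3, a4⟩ := Rev.propsA (k := k)
  obtain ⟨b1, b2, b3, b4⟩ := Rev.propsB (k := k)
  exact ⟨{x | Rev.φ 0 x ≤ 0}, {x | Rev.φ 1 x ≤ 0}, ⟨a1, a2, _, a3⟩, ⟨b1, b2, _, b3⟩,
    ⟨_, (Rev.contDiff_φ 0).analyticOnNhd, rfl, a4⟩, ⟨_, (Rev.contDiff_φ 1).analyticOnNhd, rfl, b4⟩,
    fun _ ht => Rev.magnitude_eq ht, Rev.not_isometric⟩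

end Pool.Agent.Results.MP_7c9f8e_gt.NonCongruentFour
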