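import Pool.Agent.Lib.MP_7c9f8e_gt.SlopeF

/-!
The slope at zero of the magnitude function of a convex body is at most `V₁ / 2`, with equality
exactly for ellipsoids.
-/

open MeasureTheory Set Metric Filter Topology
open scoped Pointwise

namespace Pool.Agent.Results.MP_7c9f8e_gt.SlopeEllipsoid

open Pool.Agent.Lib.MP_7c9f8e_gt

/-- The volume of the unit ball of Euclidean `k`-space. -/
noncomputable def ω (k : ℕ) : ℝ :=
  (volume (closedBall (0 : EuclideanSpace ℝ (Fin k)) 1)).toReal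

/-- A convex body: a compact convex set with nonempty interior. -/
def IsConvexBody {n : ℕ} (A : Set (EuclideanSpace ℝ (Fin n))) : Prop :=
  IsCompact A ∧ Convex ℝ A ∧ (interior A).Nonempty

/-- `V 0, …, V n` are the coefficients in the Steiner formula for `A`. -/
def IsIntrinsicVolumes {n : ℕ} (A : Set (EuclideanSpace ℝ (Fin n))) (V : ℕ → ℝ) : Prop :=
  ∀ r : ℝ, 0 ≤ r → (volume (A + r • closedBall (0 : EuclideanSpace ℝ (Fin n)) 1)).toReal
    = ∑ i ∈ Finset.range (n + 1), ω (n - i) * V i * r ^ (n - i)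

/-- An ellipsoid: the image of the closed unit ball under an invertible affine map. -/
def IsEllipsoid {n : ℕ} (A : Set (EuclideanSpace ℝ (Fin n))) : Prop :=
  ∃ (c : EuclideanSpace ℝ (Fin n))
    (T : EuclideanSpace ℝ (Fin n) ≃ₗ[ℝ] EuclideanSpace ℝ (Fin n)),
    A = (fun y => c + T y) '' closedBall 0 1

theorem result (n : ℕ) (hn : 1 ≤ n) (A : Set (EuclideanSpace ℝ (Fin n))) (hA : IsConvexBody A)
    (V : ℕ → ℝ) (hV : IsIntrinsicVolumes A V) :
    ∃ L : ℝ, Tendsto (fun t : ℝ => (magnitude (t • A) - 1) / t) (𝓝[>] 0) (𝓝 L) ∧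
      L ≤ V 1 / 2 ∧ (L = V 1 / 2 ↔ IsEllipsoid A) := by
  obtain ⟨d, rfl⟩ : ∃ d, n = d + 1 := ⟨n - 1, by omega⟩
  have hne : A.Nonempty := hA.2.2.mono interior_subset
  have h1 : V 1 / 2 = Sl.mK A := by
    rw [Sl.V_one finrank_euclideanSpace_fin hA.1 hne hV, Sl.mK]
    ring
  obtain ⟨L, h2, h3⟩ := Sl.slope_exists hA.1 hne
  refine ⟨L, h3, h1 ▸ h2, ?_⟩
  rw [h1, IsEllipsoid, ← Sl.ell_iff hA.2.2, ← Sl.slope_iff hA.1 hne hA.2.1]
  exact ⟨fun h => h ▸ h3, fun h => tendsto_nhds_unique h3 h⟩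

/-- The consequence for the question: a body with the magnitude function of an ellipsoid has at
least its first intrinsic volume, with equality exactly when it is an ellipsoid. -/
theorem compare (n : ℕ) (hn : 1 ≤ n) (A B : Set (EuclideanSpace ℝ (Fin n)))
    (hA : IsConvexBody A) (hB : IsConvexBody B) (V W : ℕ → ℝ) (hV : IsIntrinsicVolumes A V)
    (hW : IsIntrinsicVolumes B W) (hE : IsEllipsoid A)
    (h : ∀ t : ℝ, 0 < t → magnitude (t • A) = magnitude (t • B)) :
    V 1 ≤ W 1 ∧ (V 1 = W 1 ↔ IsEllipsoid B) := by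
  obtain ⟨L, a1, -, a3⟩ := result n hn A hA V hV
  obtain ⟨L', b1, b2, b3⟩ := result n hn B hB W hW
  obtain rfl : L = L' := tendsto_nhds_unique a1 (b1.congr' (by
    filter_upwards [self_mem_nhdsWithin] with t ht
    rw [h t ht]))
  have e := a3.2 hE
  rw [← b3]
  exact ⟨by linarith, fun h => by linarith, fun h => by linarith⟩

end Pool.Agent.Results.MP_7c9f8e_gt.SlopeEllipsoid
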