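import Pool.Agent.Lib.MP_7c9f8e_gt.Main

/-!
Two-term asymptotics of the magnitude function of an arbitrary convex body in Euclidean space:
`|tA| = (V_n t^n + (n+1) V_{n-1} t^(n-1)) / (n! ω_n) + o(t^(n-1))`.
-/

open MeasureTheory Set Metric Filter Topology
open scoped Pointwise

namespace Pool.Agent.Results.MP_7c9f8e_gt.SurfaceTerm

open Pool.Agent.Lib.MP_7c9f8e_gt

/-- The volume of the unit ball of Euclidean `k`-space. -/
noncomputable def ω (k : ℕ) : ℝ :=
  (volume (closedBall (0 : EuclideanSpace ℝ (Fin k)) 1)).toReal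

/-- A convex body: a compact convex set with nonempty interior. -/
def IsConvexBody {n : ℕ} (A : Set (EuclideanSpace ℝ (Fin n))) : Prop :=
  IsCompact A ∧ Convex ℝ A ∧ (interior A).Nonempty

/-- `V 0, …, V n` are the coefficients in the Steiner formula for `A`. -/
def IsIntrinsicVolumes {n : ℕ} (A : Set (EuclideanSpace ℝ (Fin n))) (V : ℕ → ℝ) : Prop :=
  ∀ r : ℝ, 0 ≤ r → (volume (A + r • closedBall (0 : EuclideanSpace ℝ (Fin n)) 1)).toReal
    = ∑ i ∈ Finset.range (n + 1), ω (n - i) * V i * r ^ (n - i)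

theorem ω_zero : ω 0 = 1 := by
  have : closedBall (0 : EuclideanSpace ℝ (Fin 0)) 1 = univ :=
    eq_univ_of_forall fun x => by simp [Subsingleton.elim x 0]
  rw [ω, this, volume_euclideanSpace_eq_dirac]
  simp

theorem ω_one : ω 1 = 2 := by
  rw [ω, InnerProductSpace.volume_closedBall_of_dim_odd (k := 0) (by simp)]
  simp

theorem ω_pos (k : ℕ) : 0 < ω k :=
  ENNReal.toReal_pos (measure_closedBall_pos _ _ one_pos).ne' measure_closedBall_lt_top.ne

theorem top_eq {n : ℕ} {A : Set (EuclideanSpace ℝ (Fin n))} {V : ℕ → ℝ}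
    (hV : IsIntrinsicVolumes A V) : volume.real A = V n := by
  have h := hV 0 le_rfl
  rw [smul_unitClosedBall_of_nonneg le_rfl, closedBall_zero, add_singleton, Finset.sum_range_succ,
    Finset.sum_eq_zero fun i hi => by
      rw [zero_pow (by have := Finset.mem_range.1 hi; omega), mul_zero]] at h
  simpa [ω_zero, Measure.real] using h

theorem slope {d : ℕ} {A : Set (EuclideanSpace ℝ (Fin (d + 1)))} {V : ℕ → ℝ}
    (hV : IsIntrinsicVolumes A V) :
    Tendsto (fun ε : ℝ => (volume.real (A + ε • closedBall (0 : EuclideanSpace ℝ (Fin (d + 1))) 1)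
      - volume.real A) / ε) (𝓝[>] 0) (𝓝 (2 * V d)) := by
  have h1 : Tendsto (fun ε : ℝ => ∑ i ∈ Finset.range (d + 1), ω (d + 1 - i) * V i * ε ^ (d - i))
      (𝓝[>] 0) (𝓝 (∑ i ∈ Finset.range (d + 1), ω (d + 1 - i) * V i * 0 ^ (d - i))) :=
    ((by fun_prop : Continuous fun ε : ℝ => ∑ i ∈ Finset.range (d + 1),
      ω (d + 1 - i) * V i * ε ^ (d - i)).tendsto 0).mono_left nhdsWithin_le_nhds
  rw [Finset.sum_range_succ _ d, Finset.sum_eq_zero fun i hi => by
      rw [zero_pow (by have := Finset.mem_range.1 hi; omega), mul_zero]] at h1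
  simp only [add_tsub_cancel_left, ω_one, tsub_self, pow_zero, mul_one, zero_add] at h1
  refine h1.congr' ?_
  filter_upwards [self_mem_nhdsWithin] with ε hε
  have hε0 : (0:ℝ) < ε := hε
  rw [top_eq hV, Measure.real, hV ε hε0.le, Finset.sum_range_succ _ (d + 1), tsub_self, ω_zero,
    pow_zero, one_mul, mul_one, add_sub_cancel_right, Finset.sum_div]
  refine Finset.sum_congr rfl fun i hi => ?_
  have : d + 1 - i = d - i + 1 := by have := Finset.mem_range.1 hi; omega
  rw [this, pow_succ]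
  field_simp

theorem result (n : ℕ) (hn : 1 ≤ n) (A : Set (EuclideanSpace ℝ (Fin n))) (hA : IsConvexBody A)
    (V : ℕ → ℝ) (hV : IsIntrinsicVolumes A V) :
    Tendsto (fun t : ℝ =>
        (magnitude (t • A) - V n * t ^ n / (n.factorial * ω n)) / t ^ (n - 1)) atTop
      (𝓝 ((n + 1) * V (n - 1) / (n.factorial * ω n))) := by
  obtain ⟨d, rfl⟩ : ∃ d, n = d + 1 := ⟨n - 1, by omega⟩
  have h := two_term hA.1 hA.2.1 hA.2.2 (slope hV)
  rw [top_eq hV, finrank_euclideanSpace_fin, mul_div_cancel_left₀ _ two_ne_zero] at h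
  exact h

/-! The consequence for the question: the magnitude function determines `V 0`, `V (n - 1)` and
`V n`, hence all intrinsic volumes when `n ≤ 2`. -/

theorem zero_eq {n : ℕ} {A : Set (EuclideanSpace ℝ (Fin n))} (hA : IsConvexBody A) {V : ℕ → ℝ}
    (hV : IsIntrinsicVolumes A V) : V 0 = 1 := by
  obtain ⟨p, hp⟩ := hA.2.2.mono interior_subset
  obtain ⟨R, hR0, hR⟩ := hA.1.isBounded.subset_closedBall_lt 0 (0 : EuclideanSpace ℝ (Fin n))
  have hω := ω_pos n
  have hb : ∀ (x : EuclideanSpace ℝ (Fin n)) (r : ℝ), 0 ≤ r →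
      (volume (closedBall x r)).toReal = r ^ n * ω n := by
    intro x r hr
    rw [Measure.addHaar_closedBall' _ _ hr, ENNReal.toReal_mul,
      ENNReal.toReal_ofReal (by positivity), finrank_euclideanSpace_fin, ω]
  have h1 : Tendsto (fun ε : ℝ => ∑ i ∈ Finset.range (n + 1), ω (n - i) * V i * ε ^ i)
      (𝓝[>] 0) (𝓝 (∑ i ∈ Finset.range (n + 1), ω (n - i) * V i * 0 ^ i)) :=
    ((by fun_prop : Continuous fun ε : ℝ => ∑ i ∈ Finset.range (n + 1),
      ω (n - i) * V i * ε ^ i).tendsto 0).mono_left nhdsWithin_le_nhds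
  rw [Finset.sum_range_succ' _ n, Finset.sum_eq_zero fun i _ => by simp] at h1
  simp only [tsub_zero, pow_zero, mul_one, zero_add] at h1
  have h2 : Tendsto (fun ε : ℝ => (R * ε + 1) ^ n * ω n) (𝓝[>] 0) (𝓝 ((R * 0 + 1) ^ n * ω n)) :=
    ((by fun_prop : Continuous fun ε : ℝ => (R * ε + 1) ^ n * ω n).tendsto 0).mono_left
      nhdsWithin_le_nhds
  simp only [mul_zero, zero_add, one_pow, one_mul] at h2
  have h3 : Tendsto (fun ε : ℝ => ∑ i ∈ Finset.range (n + 1), ω (n - i) * V i * ε ^ i)
      (𝓝[>] 0) (𝓝 (ω n)) := by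
    have key : ∀ ε : ℝ, 0 < ε → ∑ i ∈ Finset.range (n + 1), ω (n - i) * V i * ε ^ i
        = ε ^ n * (volume (A + ε⁻¹ • closedBall (0 : EuclideanSpace ℝ (Fin n)) 1)).toReal := by
      intro ε hε
      rw [hV _ (by positivity), Finset.mul_sum]
      refine Finset.sum_congr rfl fun i hi => ?_
      have : n = i + (n - i) := by have := Finset.mem_range.1 hi; omega
      rw [show ε ^ n = ε ^ i * ε ^ (n - i) by rw [← pow_add, ← this], inv_pow]
      field_simp
    have hsub : ∀ ε : ℝ, 0 < ε → A + ε⁻¹ • closedBall (0 : EuclideanSpace ℝ (Fin n)) 1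
        ⊆ closedBall 0 (R + ε⁻¹) := by
      intro ε hε
      rw [smul_unitClosedBall_of_nonneg (by positivity)]
      rintro _ ⟨a, ha, y, hy, rfl⟩
      have := hR ha
      rw [mem_closedBall_zero_iff] at *
      exact (norm_add_le _ _).trans (add_le_add this hy)
    refine tendsto_of_tendsto_of_tendsto_of_le_of_le' tendsto_const_nhds h2 ?_ ?_
    · filter_upwards [self_mem_nhdsWithin] with ε hε
      have hε0 : (0:ℝ) < ε := hε
      rw [key ε hε0]
      have h4 : closedBall p ε⁻¹ ⊆ A + ε⁻¹ • closedBall (0 : EuclideanSpace ℝ (Fin n)) 1 := by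
        rw [smul_unitClosedBall_of_nonneg (by positivity)]
        intro x hx
        exact ⟨p, hp, x - p, by simpa [dist_eq_norm] using hx, by simp⟩
      have h5 := ENNReal.toReal_mono ((measure_mono (hsub ε hε0)).trans_lt
        measure_closedBall_lt_top).ne (measure_mono (μ := volume) h4)
      rw [hb _ _ (by positivity)] at h5
      refine le_of_eq_of_le ?_ (mul_le_mul_of_nonneg_left h5 (by positivity))
      rw [inv_pow]
      field_simp
    · filter_upwards [self_mem_nhdsWithin] with ε hε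
      have hε0 : (0:ℝ) < ε := hε
      rw [key ε hε0]
      have h5 := ENNReal.toReal_mono measure_closedBall_lt_top.ne
        (measure_mono (μ := volume) (hsub ε hε0))
      rw [hb _ _ (by positivity)] at h5
      refine (mul_le_mul_of_nonneg_left h5 (by positivity)).trans (le_of_eq ?_)
      rw [← mul_assoc, ← mul_pow]
      congr 2
      field_simp
  have h4 := tendsto_nhds_unique h1 h3
  exact mul_left_cancel₀ hω.ne' (by rw [h4, mul_one])

theorem determined (n : ℕ) (hn : 1 ≤ n) (A B : Set (EuclideanSpace ℝ (Fin n)))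
    (hA : IsConvexBody A) (hB : IsConvexBody B) (V W : ℕ → ℝ) (hV : IsIntrinsicVolumes A V)
    (hW : IsIntrinsicVolumes B W) (h : ∀ t : ℝ, 0 < t → magnitude (t • A) = magnitude (t • B)) :
    V 0 = W 0 ∧ V (n - 1) = W (n - 1) ∧ V n = W n := by
  have h1 := result n hn A hA V hV
  have h2 := result n hn B hB W hW
  have hc : 0 < (n.factorial : ℝ) * ω n := mul_pos (by positivity) (ω_pos n)
  set c := (n.factorial : ℝ) * ω n
  obtain ⟨d, rfl⟩ : ∃ d, n = d + 1 := ⟨n - 1, by omega⟩
  simp only [add_tsub_cancel_right] at *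
  have h3 := (h1.sub h2).mul tendsto_inv_atTop_zero
  have h4 : W (d + 1) / c - V (d + 1) / c = 0 := by
    rw [mul_zero] at h3
    refine tendsto_nhds_unique tendsto_const_nhds (h3.congr' ?_)
    filter_upwards [eventually_gt_atTop 0] with t ht
    rw [h t ht]
    field_simp
    ring
  have h5 : V (d + 1) = W (d + 1) := by
    rw [sub_eq_zero, div_left_inj' hc.ne'] at h4
    exact h4.symm
  refine ⟨by rw [zero_eq hA hV, zero_eq hB hW], ?_, h5⟩
  have h6 := tendsto_nhds_unique h1 (h2.congr' (by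
    filter_upwards [eventually_gt_atTop 0] with t ht
    rw [h t ht, h5]))
  rw [div_left_inj' hc.ne'] at h6
  exact mul_left_cancel₀ (by positivity) h6

theorem plane (A B : Set (EuclideanSpace ℝ (Fin 2)))
    (hA : IsConvexBody A) (hB : IsConvexBody B) (V W : ℕ → ℝ) (hV : IsIntrinsicVolumes A V)
    (hW : IsIntrinsicVolumes B W) (h : ∀ t : ℝ, 0 < t → magnitude (t • A) = magnitude (t • B)) :
    ∀ i ≤ 2, V i = W i := by
  obtain ⟨h0, h1, h2⟩ := determined 2 (by norm_num) A B hA hB V W hV hW h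
  intro i hi
  interval_cases i
  exacts [h0, h1, h2]

end Pool.Agent.Results.MP_7c9f8e_gt.SurfaceTerm
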