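import Pool.Agent.Lib.MP_7c9f8e_gt.SlopeP

/-!
An ellipse is determined, among all convex bodies of the plane, by its magnitude function.
-/

open Set Metric
open scoped Pointwise

namespace Pool.Agent.Results.MP_7c9f8e_gt.UniqueEllipse

open Pool.Agent.Lib.MP_7c9f8e_gt

/-- A convex body: a compact convex set with nonempty interior. -/
def IsConvexBody (A : Set (EuclideanSpace ℝ (Fin 2))) : Prop :=
  IsCompact A ∧ Convex ℝ A ∧ (interior A).Nonempty

/-- A solid ellipse: the image of the closed unit disc under an invertible affine map. -/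
def IsEllipse (A : Set (EuclideanSpace ℝ (Fin 2))) : Prop :=
  ∃ (c : EuclideanSpace ℝ (Fin 2))
    (T : EuclideanSpace ℝ (Fin 2) ≃ₗ[ℝ] EuclideanSpace ℝ (Fin 2)),
    A = (fun y => c + T y) '' closedBall 0 1

theorem result (A B : Set (EuclideanSpace ℝ (Fin 2))) (hA : IsEllipse A) (hB : IsConvexBody B)
    (h : ∀ t : ℝ, 0 < t → magnitude (t • A) = magnitude (t • B)) :
    ∃ f : EuclideanSpace ℝ (Fin 2) ≃ᵢ EuclideanSpace ℝ (Fin 2), f '' A = B := by
  obtain ⟨c, T, rfl⟩ := hA
  refine Sl.ellipse_rigid finrank_euclideanSpace_fin ⟨c, T, rfl⟩ ?_ hB.1 hB.2.1 hB.2.2 h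
  have e := (T.toContinuousLinearEquiv.toHomeomorph.trans (Homeomorph.addLeft c)).image_interior
    (closedBall 0 1)
  exact e ▸ ((nonempty_ball.2 one_pos).mono ball_subset_interior_closedBall).image _

end Pool.Agent.Results.MP_7c9f8e_gt.UniqueEllipse
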